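import Pool.Agent.N437.SQ.Stm

/-!
# The number of the vertices and edges of the layered graph
-/

set_option autoImplicit false

namespace Pool.Agent.N49.SQ

open Finset Pool.Agent.N437.SQ

theorem M_le (q L i : ℕ) (hq : 2 ≤ q) (hi : i < L) :
    (M q L i : ℝ) ≤ (q : ℝ) ^ (3 ^ L) * (1 / 2) ^ (i + 1) := by
  have h1 : M q L i * 2 ^ (i + 1) ≤ q ^ (3 ^ L) := by
    have h2 : 2 ^ (i + 1) ≤ q ^ (3 ^ i) :=
      calc 2 ^ (i + 1) ≤ 2 ^ (3 ^ i) :=
            Nat.pow_le_pow_right (by norm_num) (Nat.lt_pow_self (by norm_num))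
        _ ≤ q ^ (3 ^ i) := Nat.pow_le_pow_left hq _
    have h3 : 3 ^ i ≤ 3 ^ L := Nat.pow_le_pow_right (by norm_num) hi.le
    calc M q L i * 2 ^ (i + 1) ≤ q ^ (3 ^ L - 3 ^ i) * q ^ (3 ^ i) := Nat.mul_le_mul_left _ h2
      _ = q ^ (3 ^ L) := by rw [← pow_add, Nat.sub_add_cancel h3]
  have h4 : (M q L i : ℝ) * 2 ^ (i + 1) ≤ (q : ℝ) ^ (3 ^ L) := by exact_mod_cast h1
  have h5 : (0 : ℝ) < 2 ^ (i + 1) := by positivity
  rw [one_div, inv_pow, ← div_eq_mul_inv, le_div_iff₀ h5]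
  exact h4

theorem sum_half (L : ℕ) : ∑ i ∈ range L, (1 / 2 : ℝ) ^ (i + 1) = 1 - (1 / 2) ^ L := by
  induction L with
  | zero => simp
  | succ n ih =>
    rw [sum_range_succ, ih]
    ring

theorem card_lay (q L : ℕ) (hq : 2 ≤ q) : Fintype.card (Lay q L) ≤ q ^ (3 ^ L) := by
  rw [Fintype.card_sigma]
  simp only [Fintype.card_fin]
  have h : ((∑ i : Fin L, M q L i : ℕ) : ℝ) ≤ (q : ℝ) ^ (3 ^ L) := by
    push_cast
    calc ∑ i : Fin L, (M q L i : ℝ) ≤ ∑ i : Fin L, (q : ℝ) ^ (3 ^ L) * (1 / 2) ^ ((i : ℕ) + 1) :=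
          sum_le_sum fun i _ => M_le q L i hq i.2
      _ = (q : ℝ) ^ (3 ^ L) * (1 - (1 / 2) ^ L) := by
          rw [← mul_sum, Fin.sum_univ_eq_sum_range (fun i => (1 / 2 : ℝ) ^ (i + 1)), sum_half]
      _ ≤ (q : ℝ) ^ (3 ^ L) := by
          have h1 : (0 : ℝ) ≤ (q : ℝ) ^ (3 ^ L) := by positivity
          have h2 : (0 : ℝ) ≤ (1 / 2 : ℝ) ^ L := by positivity
          nlinarith
  exact_mod_cast h

theorem edges (q L : ℕ) (φ : Fin (q ^ (3 ^ L)) → Psi q L) :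
    (LG q L φ).edgeSet.ncard = L * q ^ (3 ^ L) := by
  let f : Fin (q ^ (3 ^ L)) × Fin L → Sym2 (Fin (q ^ (3 ^ L)) ⊕ Lay q L) := fun p =>
    s(Sum.inl p.1, Sum.inr ⟨p.2, φ p.1 p.2⟩)
  have hf : Function.Injective f := by
    rintro ⟨a, i⟩ ⟨b, j⟩ h
    simp only [f] at h
    rw [Sym2.eq_iff] at h
    rcases h with ⟨h1, h2⟩ | ⟨h1, h2⟩
    · have h3 := Sum.inl.inj h1
      have h4 := congrArg Sigma.fst (Sum.inr.inj h2)
      simp only at h4
      rw [h3, h4]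
    · exact absurd h1 (by simp)
  have hE : (LG q L φ).edgeSet = f '' Set.univ := by
    rw [Set.image_univ]
    ext e
    induction e using Sym2.ind with
    | _ x y =>
      rw [SimpleGraph.mem_edgeSet, Set.mem_range]
      constructor
      · rintro (⟨a, i, rfl, rfl⟩ | ⟨a, i, rfl, rfl⟩)
        · exact ⟨(a, i), rfl⟩
        · exact ⟨(a, i), Sym2.eq_swap⟩
      · rintro ⟨⟨a, i⟩, h⟩
        simp only [f] at h
        rw [Sym2.eq_iff] at h
        rcases h with ⟨h1, h2⟩ | ⟨h1, h2⟩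
        · exact Or.inl ⟨a, i, h1.symm, h2.symm⟩
        · exact Or.inr ⟨a, i, h1.symm, h2.symm⟩
  rw [hE, Set.ncard_image_of_injective _ hf, Set.ncard_univ, Nat.card_prod, Nat.card_fin,
    Nat.card_fin, mul_comm]

theorem t_F7 : S_F7 := by
  intro q L φ hq
  refine ⟨?_, edges q L φ⟩
  rw [Fintype.card_sum, Fintype.card_fin]
  have := card_lay q L hq
  omega

end Pool.Agent.N49.SQ
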